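import Pool.Agent.Q124.Surv.Strong
import Pool.Agent.Q124.Surv.Tree

/-!
# A non-Liouville vertex-transitive graph with finite survival number

The strong product of the 3-regular tree and the two-way infinite path `ℤ` has survival number at
most `6`: the vertex `(o, 0)` is dominated by the six vertices `(x_j, ± j M)`, where `x_1, x_2, x_3`
are the neighbours of `o`.  A bounded nonconstant harmonic function of the tree gives a bounded
nonconstant harmonic function of the strong product which does not depend on the second entry.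
-/

namespace Pool.Agent.Results.MP_70c392_co.NonLiouville

open Q124.Surv

/-- The function `h` is harmonic: its value at a vertex is the average of its values at the
neighbours. -/
def Harmonic {V : Type*} (G : SimpleGraph V) (h : V → ℝ) : Prop :=
  ∀ v, h v = (∑ᶠ w ∈ G.neighborSet v, h w) / ((G.neighborSet v).ncard : ℝ)

/-- `G` is Liouville: all bounded harmonic functions are constant. -/
def Liouville {V : Type*} (G : SimpleGraph V) : Prop :=
  ∀ h : V → ℝ, Harmonic G h → (∃ C : ℝ, ∀ v, |h v| ≤ C) → ∀ u v, h u = h v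

/-- A harmonic function of the tree. -/
noncomputable def g (v : Tr) : ℝ :=
  if (0 : ℤ) ∈ v.1.1 then 1 - (1 / 2) ^ (v.1.2.toNat + 1) else (1 / 2) ^ (v.1.2.toNat + 1)

theorem g_sum (v : Tr) : g v.parent + g (child0 v) + g (child1 v) = 3 * g v := by
  have e0 : (0 : ℤ) ∈ v.parent.1.1 ↔ (0 : ℤ) ∈ v.1.1 ∧ v.1.2 ≠ 1 := by
    rw [parent_fst, Finset.mem_erase]
    constructor
    · rintro ⟨h1, h2⟩
      exact ⟨h2, by omega⟩
    · rintro ⟨h1, h2⟩
      exact ⟨by omega, h1⟩
  have e1 : (0 : ℤ) ∈ (child0 v).1.1 ↔ (0 : ℤ) ∈ v.1.1 := Iff.rfl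
  have e2 : (0 : ℤ) ∈ (child1 v).1.1 ↔ (0 : ℤ) ∈ v.1.1 ∨ v.1.2 = 0 := by
    simp only [child1, Finset.mem_insert]
    constructor
    · rintro (h | h)
      · exact Or.inr h.symm
      · exact Or.inl h
    · rintro (h | h)
      · exact Or.inr h
      · exact Or.inl h.symm
  have n0 : v.parent.1.2 = v.1.2 - 1 := rfl
  have n1 : (child0 v).1.2 = v.1.2 + 1 := rfl
  have n2 : (child1 v).1.2 = v.1.2 + 1 := rfl
  unfold g
  rw [n0, n1, n2]
  simp only [e0, e1, e2]
  by_cases h0 : (0 : ℤ) ∈ v.1.1
  · have h1 : 0 < v.1.2 := v.2 0 h0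
    obtain ⟨k, hk⟩ : ∃ k : ℕ, v.1.2 = k + 1 := ⟨(v.1.2 - 1).toNat, by omega⟩
    rw [hk]
    have t0 : ((k : ℤ) + 1 - 1).toNat = k := by omega
    have t1 : ((k : ℤ) + 1 + 1).toNat = k + 2 := by omega
    have t2 : ((k : ℤ) + 1).toNat = k + 1 := by omega
    rw [t0, t1, t2]
    by_cases hk0 : k = 0
    · subst hk0
      norm_num [h0]
    · have hk1 : ((k : ℤ) + 1 ≠ 1) := by omega
      simp only [h0, hk1, ne_eq, not_false_eq_true, and_self, if_true, true_or]
      ring
  · rcases lt_trichotomy v.1.2 0 with h1 | h1 | h1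
    · have t0 : (v.1.2 - 1).toNat = 0 := by omega
      have t1 : (v.1.2 + 1).toNat = 0 := by omega
      have t2 : (v.1.2).toNat = 0 := by omega
      rw [t0, t1, t2]
      simp only [h0, false_and, if_false, false_or, h1.ne]
      norm_num
    · rw [h1]
      have t0 : ((0 : ℤ) - 1).toNat = 0 := by decide
      rw [t0]
      simp only [h0, false_and, if_false, false_or]
      norm_num
    · obtain ⟨k, hk⟩ : ∃ k : ℕ, v.1.2 = k + 1 := ⟨(v.1.2 - 1).toNat, by omega⟩
      rw [hk]
      have t0 : ((k : ℤ) + 1 - 1).toNat = k := by omega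
      have t1 : ((k : ℤ) + 1 + 1).toNat = k + 2 := by omega
      have t2 : ((k : ℤ) + 1).toNat = k + 1 := by omega
      have hk1 : ¬ ((k : ℤ) + 1 = 0) := by omega
      rw [t0, t1, t2]
      simp only [h0, hk1, false_and, if_false, false_or]
      ring

theorem g_bound (v : Tr) : |g v| ≤ 1 := by
  have h1 : (0 : ℝ) ≤ (1 / 2) ^ (v.1.2.toNat + 1) := by positivity
  have h2 : (1 / 2 : ℝ) ^ (v.1.2.toNat + 1) ≤ 1 := pow_le_one₀ (by norm_num) (by norm_num)
  unfold g
  rw [abs_le]
  split_ifs
  · constructor <;> linarith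
  · constructor <;> linarith

open Classical in
/-- The neighbours of a vertex of the strong product. -/
noncomputable def nbrs (v : Tr) (z : ℤ) : Finset (Tr × ℤ) :=
  (({v, v.parent, child0 v, child1 v} : Finset Tr) ×ˢ ({z - 1, z, z + 1} : Finset ℤ)).erase (v, z)

theorem neighborSet_strong (v : Tr) (z : ℤ) :
    (strongZ tree).neighborSet (v, z) = (nbrs v z : Set (Tr × ℤ)) := by
  classical
  ext ⟨u, y⟩
  have h1 : tree.Adj v u ↔ u ∈ tree.neighborSet v := Iff.rfl
  simp only [SimpleGraph.mem_neighborSet, nbrs, Finset.coe_erase, Set.mem_sdiff, Finset.mem_coe,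
    Finset.mem_product, Finset.mem_insert, Finset.mem_singleton, Set.mem_singleton_iff, strongZ,
    h1, neighborSet_tree, Set.mem_insert_iff]
  rw [abs_le]
  constructor
  · rintro ⟨h2, h3, h4⟩
    refine ⟨⟨?_, by omega⟩, fun h => h2 h.symm⟩
    rcases h3 with h3 | h3
    · exact Or.inl h3.symm
    · exact Or.inr h3
  · rintro ⟨⟨h3, h4⟩, h2⟩
    refine ⟨fun h => h2 h.symm, ?_, by omega⟩
    rcases h3 with h3 | h3
    · exact Or.inl h3.symm
    · exact Or.inr h3

theorem v_ne (v : Tr) : v ≠ v.parent ∧ v ≠ child0 v ∧ v ≠ child1 v := by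
  refine ⟨?_, ?_, ?_⟩
  · intro h
    have := congrArg (fun w : Tr => w.1.2) h
    simp only [parent_snd] at this
    omega
  · intro h
    have := congrArg (fun w : Tr => w.1.2) h
    simp only [child0] at this
    omega
  · intro h
    have := congrArg (fun w : Tr => w.1.2) h
    simp only [child1] at this
    omega

theorem sum_nbrs (F : Tr → ℝ) (v : Tr) (z : ℤ) : ∑ p ∈ nbrs v z, F p.1 =
    2 * F v + 3 * (F v.parent + F (child0 v) + F (child1 v)) := by
  classical
  have hmem : (v, z) ∈ (({v, v.parent, child0 v, child1 v} : Finset Tr) ×ˢ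
      ({z - 1, z, z + 1} : Finset ℤ)) := by simp
  have h1 := Finset.add_sum_erase _ (fun p : Tr × ℤ => F p.1) hmem
  have h2 : ∑ p ∈ (({v, v.parent, child0 v, child1 v} : Finset Tr) ×ˢ
      ({z - 1, z, z + 1} : Finset ℤ)), F p.1 =
      3 * (F v + (F v.parent + (F (child0 v) + F (child1 v)))) := by
    rw [Finset.sum_product]
    simp only [Finset.sum_const]
    have h3 : ({z - 1, z, z + 1} : Finset ℤ).card = 3 := by
      rw [Finset.card_insert_of_notMem, Finset.card_insert_of_notMem, Finset.card_singleton]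
      · simp
      · simp only [Finset.mem_insert, Finset.mem_singleton]
        omega
    rw [h3]
    obtain ⟨h4, h5, h6⟩ := v_ne v
    rw [Finset.sum_insert, Finset.sum_insert, Finset.sum_insert, Finset.sum_singleton]
    · simp only [nsmul_eq_mul]
      push_cast
      ring
    · simp [child_ne]
    · simp [parent_ne_child0, parent_ne_child1]
    · simp [h4, h5, h6]
  have h3 : ∑ p ∈ nbrs v z, F p.1 = ∑ p ∈ (({v, v.parent, child0 v, child1 v} : Finset Tr) ×ˢ
      ({z - 1, z, z + 1} : Finset ℤ)).erase (v, z), F p.1 := rfl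
  rw [h3]
  linarith

theorem card_nbrs (v : Tr) (z : ℤ) : ((nbrs v z).card : ℝ) = 11 := by
  have h := sum_nbrs (fun _ => 1) v z
  rw [Finset.sum_const, nsmul_eq_mul, mul_one] at h
  rw [h]
  norm_num

theorem not_liouville : ¬ Liouville (strongZ tree) := by
  intro hL
  have h := hL (fun p => g p.1) ?_ ⟨1, fun p => g_bound p.1⟩ (base 0, 0) (base 1, 0)
  · simp only [g, base, Finset.notMem_empty, if_false] at h
    norm_num at h
  · rintro ⟨v, z⟩
    simp only
    rw [neighborSet_strong, Set.ncard_coe_finset, card_nbrs, finsum_mem_coe_finset, sum_nbrs,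
      g_sum]
    ring

/-- **There is an infinite, connected, locally finite, vertex-transitive graph that is not
Liouville and has finite survival number.** -/
theorem result : ∃ (V : Type) (G : SimpleGraph V), Infinite V ∧ G.Connected ∧ LocFinite G ∧
    VertexTransitive G ∧ ¬ Liouville G ∧ survival G ≤ 6 := by
  refine ⟨Tr × ℤ, strongZ tree, inferInstance, strong_connected tree_connected,
    strong_locFinite tree_locFinite, strong_transitive tree_transitive, not_liouville, ?_⟩
  have h := strong_survival tree_connected tree_locFinite (base 0)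
  rw [tree_degree] at h
  exact h

end Pool.Agent.Results.MP_70c392_co.NonLiouville
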